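import Mathlib

/-!
# MP_5a9afa_al, Q1: a product of two elements of unit stable range one need not have
unit stable range one

The ring is `C([0,1], ℝ)`, the elements are `|t - 1/3|` and `|t - 2/3|`.
-/

namespace Pool.Agent.Results.MP_5a9afa_al.ProductNotUsr

/-- `a` has unit stable range one: for every `b` with `Ra + Rb = R` (that is, `x a + y b = 1` for
some `x, y`), there is a unit `r` such that `a + r b` is a unit. -/
def Usr1 {R : Type*} [Ring R] (a : R) : Prop :=
  ∀ b : R, (∃ x y : R, x * a + y * b = 1) → ∃ r : R, IsUnit r ∧ IsUnit (a + r * b)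

/-- The ring of continuous real functions on the unit interval. -/
abbrev I : Type := Set.Icc (0 : ℝ) 1

/-- The function `t ↦ |t - c|` on the unit interval. -/
noncomputable def absf (c : ℝ) : C(I, ℝ) where
  toFun t := |(t : ℝ) - c|
  continuous_toFun := by fun_prop

lemma absf_apply (c : ℝ) (t : I) : absf c t = |(t : ℝ) - c| := rfl

lemma isUnit_of_pos {f : C(I, ℝ)} (h : ∀ t, 0 < f t) : IsUnit f :=
  (ContinuousMap.isUnit_iff_forall_ne_zero _).2 fun t => (h t).ne'

/-- The key positive construction. -/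
lemma exists_unit_of_pos (c : ℝ) (hc : c ∈ Set.Icc (0 : ℝ) 1) (b : C(I, ℝ))
    (hb : 0 < b ⟨c, hc⟩) : ∃ r : C(I, ℝ), IsUnit r ∧ IsUnit (absf c + r * b) := by
  have hpos : ∀ t : I, 0 < absf c t + max (b t) 0 := by
    intro t
    by_cases ht : (t : ℝ) = c
    · have : t = ⟨c, hc⟩ := Subtype.ext ht
      subst this
      have h1 : 0 < max (b ⟨c, hc⟩) 0 := lt_max_of_lt_left hb
      have h2 : 0 ≤ absf c ⟨c, hc⟩ := abs_nonneg _
      linarith
    · have h1 : 0 < absf c t := abs_pos.2 (sub_ne_zero.2 ht)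
      have h2 : 0 ≤ max (b t) 0 := le_max_right _ _
      linarith
  let r : C(I, ℝ) :=
    ⟨fun t => (absf c t + max (b t) 0) / (2 * (1 + |b t|)), by
      refine Continuous.div ?_ ?_ ?_
      · exact (absf c).continuous.add (b.continuous.max continuous_const)
      · exact continuous_const.mul (continuous_const.add b.continuous.abs)
      · intro t
        positivity⟩
  have hr : ∀ t, r t = (absf c t + max (b t) 0) / (2 * (1 + |b t|)) := fun t => rfl
  have hrpos : ∀ t, 0 < r t := by
    intro t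
    rw [hr]
    have := hpos t
    positivity
  refine ⟨r, isUnit_of_pos hrpos, isUnit_of_pos fun t => ?_⟩
  rw [ContinuousMap.add_apply, ContinuousMap.mul_apply]
  have ha : 0 ≤ absf c t := abs_nonneg _
  rcases lt_or_ge 0 (b t) with hbt | hbt
  · have := mul_pos (hrpos t) hbt
    linarith
  · have hmax : max (b t) 0 = 0 := max_eq_right hbt
    have hp := hpos t
    rw [hmax, add_zero] at hp
    have habs : |b t| = -b t := abs_of_nonpos hbt
    rw [hr, hmax, add_zero, habs]
    have hden : 0 < 2 * (1 + -b t) := by linarith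
    have : absf c t + absf c t / (2 * (1 + -b t)) * b t
        = absf c t * ((2 - b t) / (2 * (1 + -b t))) := by
      have hne : 2 * (1 + -b t) ≠ 0 := hden.ne'
      rw [div_mul_eq_mul_div, ← mul_div_assoc, eq_div_iff hne, add_mul, div_mul_cancel₀ _ hne]
      ring
    rw [this]
    apply mul_pos hp
    apply div_pos _ hden
    linarith

/-- `|t - c|` has unit stable range one in `C([0,1], ℝ)`. -/
lemma usr1_absf (c : ℝ) (hc : c ∈ Set.Icc (0 : ℝ) 1) : Usr1 (absf c) := by
  rintro b ⟨x, y, hxy⟩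
  have h0 : absf c ⟨c, hc⟩ = 0 := by simp [absf_apply]
  have hb : b ⟨c, hc⟩ ≠ 0 := by
    intro h
    have := congrArg (fun f : C(I, ℝ) => f ⟨c, hc⟩) hxy
    simp [h0, h] at this
  rcases lt_or_gt_of_ne hb with hneg | hpos
  · obtain ⟨r, hr, hu⟩ := exists_unit_of_pos c hc (-b) (by simpa using hneg)
    refine ⟨-r, hr.neg, ?_⟩
    have : -r * b = r * -b := by ring
    rw [this]
    exact hu
  · exact exists_unit_of_pos c hc b hpos

lemma third_mem : (1 / 3 : ℝ) ∈ Set.Icc (0 : ℝ) 1 := by constructor <;> norm_num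

lemma twothird_mem : (2 / 3 : ℝ) ∈ Set.Icc (0 : ℝ) 1 := by constructor <;> norm_num

/-- A unit of `C([0,1], ℝ)` has constant sign. -/
lemma unit_same_sign {u : C(I, ℝ)} (hu : IsUnit u) (s t : I) : 0 < u s * u t := by
  have hne := (ContinuousMap.isUnit_iff_forall_ne_zero _).1 hu
  by_contra hcon
  push Not at hcon
  have hlt : u s * u t < 0 := lt_of_le_of_ne hcon (mul_ne_zero (hne s) (hne t))
  have hpre : IsPreconnected (Set.univ : Set I) := isPreconnected_univ
  rcases mul_neg_iff.1 hlt with ⟨h1, h2⟩ | ⟨h1, h2⟩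
  · obtain ⟨z, -, hz⟩ := hpre.intermediate_value (Set.mem_univ t) (Set.mem_univ s)
      u.continuous.continuousOn (show (0 : ℝ) ∈ Set.Icc (u t) (u s) from ⟨h2.le, h1.le⟩)
    exact hne z hz
  · obtain ⟨z, -, hz⟩ := hpre.intermediate_value (Set.mem_univ s) (Set.mem_univ t)
      u.continuous.continuousOn (show (0 : ℝ) ∈ Set.Icc (u s) (u t) from ⟨h1.le, h2.le⟩)
    exact hne z hz

/-- The function `t ↦ 1/2 - t`. -/
noncomputable def lin : C(I, ℝ) where
  toFun t := 1 / 2 - (t : ℝ)
  continuous_toFun := by fun_prop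

lemma lin_apply (t : I) : lin t = 1 / 2 - (t : ℝ) := rfl

/-- The product does not have unit stable range one. -/
lemma not_usr1_mul : ¬ Usr1 (absf (1 / 3) * absf (2 / 3)) := by
  intro h
  set c : C(I, ℝ) := absf (1 / 3) * absf (2 / 3) with hc
  have hcapp : ∀ t : I, c t = |(t : ℝ) - 1 / 3| * |(t : ℝ) - 2 / 3| := fun t => rfl
  have hunit : IsUnit (c * c + lin * lin) := by
    apply isUnit_of_pos
    intro t
    have e1 : (c * c + lin * lin) t = c t * c t + lin t * lin t := rfl
    rw [e1]
    by_cases ht : (t : ℝ) = 1 / 2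
    · have h1 : 0 < c t := by
        rw [hcapp, ht]
        apply mul_pos <;> apply abs_pos.2 <;> norm_num
      have h2 : 0 ≤ lin t * lin t := mul_self_nonneg _
      have h3 := mul_pos h1 h1
      linarith
    · have h1 : lin t ≠ 0 := by
        rw [lin_apply]
        intro h0
        apply ht
        linarith
      have h2 : 0 < lin t * lin t := mul_self_pos.2 h1
      have h3 : 0 ≤ c t * c t := mul_self_nonneg _
      linarith
  obtain ⟨v, hv⟩ := hunit.exists_left_inv
  obtain ⟨r, hr, hu⟩ := h lin ⟨v * c, v * lin, by rw [← hv]; ring⟩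
  have hs1 := unit_same_sign hr ⟨1 / 3, third_mem⟩ ⟨2 / 3, twothird_mem⟩
  have hs2 := unit_same_sign hu ⟨1 / 3, third_mem⟩ ⟨2 / 3, twothird_mem⟩
  have e2 : ∀ t : I, (c + r * lin) t = |(t : ℝ) - 1 / 3| * |(t : ℝ) - 2 / 3|
      + r t * (1 / 2 - (t : ℝ)) := fun t => rfl
  rw [e2, e2] at hs2
  have e3 : |(1 / 3 : ℝ) - 1 / 3| = 0 := by norm_num
  have e4 : |(2 / 3 : ℝ) - 2 / 3| = 0 := by norm_num
  simp only [e3, e4, zero_mul, mul_zero, zero_add] at hs2
  nlinarith

/-- **MP_5a9afa_al, Q1: yes.**  There is a (commutative) ring with two elements of unit stable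
range one whose product does not have unit stable range one. -/
theorem result : ∃ (R : Type) (_ : Ring R) (a b : R), Usr1 a ∧ Usr1 b ∧ ¬ Usr1 (a * b) :=
  ⟨C(I, ℝ), inferInstance, absf (1 / 3), absf (2 / 3), usr1_absf _ third_mem,
    usr1_absf _ twothird_mem, not_usr1_mul⟩

end Pool.Agent.Results.MP_5a9afa_al.ProductNotUsr
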